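import Pool.Agent.Q283.FT.Stm2
import Pool.Agent.Q153.EN.NUMA

/-!
# Project FT (helper283), job NMC: numerical values of the law in a class
-/

set_option autoImplicit false

namespace Pool.Agent.Q129.FT

open Filter Topology Finset
open Pool.Agent.Q153.EN (QQ QQ_succ QQ_pos)
open Pool.Agent.Q269.MF (bet)
open Q44.JQ (lawc)

theorem bet_al : bet = Pool.Agent.Q283.EN.al 2 0 := by
  rw [Pool.Agent.Q153.EN.al_zero]
  unfold bet
  norm_num

theorem bet_bd : 0.4194 < bet ∧ bet < 0.4195 := by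
  rw [bet_al]
  exact Pool.Agent.Q153.EN.al2

/-- the terms of the mean -/
noncomputable def gg (j : ℕ) : ℝ := (j : ℝ) * 2 ^ j / QQ 2 j

/-- the terms of the mean in a class -/
noncomputable def fg (c : ZMod 2) (j : ℕ) : ℝ := if ((j : ℕ) : ZMod 2) = c then gg j else 0

theorem lawc_eq (c : ZMod 2) (j : ℕ) :
    lawc c j = if ((j : ℕ) : ZMod 2) = c then bet * (2 ^ j / QQ 2 j) else 0 := by
  unfold lawc
  rw [Pool.Agent.Q269.SL.law2_eq]
  split_ifs
  · unfold QQ
    push_cast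
    ring
  · rfl

theorem mul_lawc (c : ZMod 2) (j : ℕ) : (j : ℝ) * lawc c j = bet * fg c j := by
  rw [lawc_eq, fg]
  split_ifs
  · unfold gg; ring
  · ring

theorem gg_nonneg (j : ℕ) : 0 ≤ gg j :=
  div_nonneg (by positivity) (QQ_pos le_rfl j).le

theorem fg_nonneg (c : ZMod 2) (j : ℕ) : 0 ≤ fg c j := by
  unfold fg
  split_ifs
  · exact gg_nonneg j
  · exact le_rfl

theorem fg_le (c : ZMod 2) (j : ℕ) : fg c j ≤ gg j := by
  unfold fg
  split_ifs
  · exact le_rfl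
  · exact gg_nonneg j

theorem gg_step {n : ℕ} (hn : 2 ≤ n) : 2 * gg (n + 1) ≤ gg n := by
  unfold gg
  rw [QQ_succ]
  have hq : 0 < QQ 2 n := QQ_pos le_rfl n
  have hn' : (2 : ℝ) ≤ n := by exact_mod_cast hn
  have h8 : (8 : ℝ) ≤ 2 ^ (n + 1) := by
    calc (8 : ℝ) = 2 ^ 3 := by norm_num
      _ ≤ 2 ^ (n + 1) := pow_le_pow_right₀ (by norm_num) (by omega)
  push_cast
  rw [mul_div_assoc', div_le_div_iff₀ (mul_pos hq (by linarith)) hq]
  have h2 : 2 * (((n : ℝ) + 1) * 2 ^ (n + 1)) ≤ n * 2 ^ n * (2 ^ (n + 1) - 1) := by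
    have e : (2 : ℝ) ^ (n + 1) = 2 * 2 ^ n := by ring
    rw [e] at h8 ⊢
    have h4 : (4 : ℝ) ≤ 2 ^ n := by linarith
    have h5 : 4 * ((n : ℝ) + 1) ≤ n * (2 * 2 ^ n - 1) := by nlinarith
    nlinarith
  nlinarith [mul_le_mul_of_nonneg_right h2 hq.le]

theorem sum_bd (c : ZMod 2) (m : ℕ) :
    ∑ r ∈ range (6 + m), fg c r + 2 * gg (6 + m) ≤ ∑ r ∈ range 6, fg c r + 2 * gg 6 := by
  induction m with
  | zero => exact le_rfl
  | succ m ih =>
    refine le_trans ?_ ih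
    rw [← add_assoc, sum_range_succ]
    have h1 := gg_step (n := 6 + m) (by omega)
    have h2 := fg_le c (6 + m)
    linarith

theorem tsum_bd (c : ZMod 2) : ∑' r : ℕ, fg c r ≤ ∑ r ∈ range 6, fg c r + 2 * gg 6 := by
  refine Real.tsum_le_of_sum_range_le (fg_nonneg c) fun n => ?_
  have h1 : ∑ r ∈ range n, fg c r ≤ ∑ r ∈ range (6 + n), fg c r :=
    Finset.sum_le_sum_of_subset_of_nonneg (Finset.range_mono (by omega)) fun r _ _ => fg_nonneg c r
  have h2 := sum_bd c n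
  have h3 := gg_nonneg (6 + n)
  linarith

theorem mean_eq (c : ZMod 2) : ∑' j : ℕ, (j : ℝ) * lawc c j = bet * ∑' j : ℕ, fg c j := by
  rw [← tsum_mul_left]
  exact tsum_congr fun j => mul_lawc c j

theorem d10 : ¬ ((0 : ℕ) : ZMod 2) = 1 := by decide
theorem d11 : ((1 : ℕ) : ZMod 2) = 1 := by decide
theorem d12 : ¬ ((2 : ℕ) : ZMod 2) = 1 := by decide
theorem d13 : ((3 : ℕ) : ZMod 2) = 1 := by decide
theorem d14 : ¬ ((4 : ℕ) : ZMod 2) = 1 := by decide
theorem d15 : ((5 : ℕ) : ZMod 2) = 1 := by decide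
theorem d00 : ((0 : ℕ) : ZMod 2) = 0 := by decide
theorem d01 : ¬ ((1 : ℕ) : ZMod 2) = 0 := by decide
theorem d02 : ((2 : ℕ) : ZMod 2) = 0 := by decide
theorem d03 : ¬ ((3 : ℕ) : ZMod 2) = 0 := by decide
theorem d04 : ((4 : ℕ) : ZMod 2) = 0 := by decide
theorem d05 : ¬ ((5 : ℕ) : ZMod 2) = 0 := by decide

theorem even_sum : ∑ r ∈ range 6, fg 0 r = 8 / 3 + 64 / 315 := by
  simp only [sum_range_succ, range_zero, sum_empty, fg]
  rw [if_pos d00, if_neg d01, if_pos d02, if_neg d03, if_pos d04, if_neg d05]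
  norm_num [gg, QQ, prod_range_succ]

theorem odd_sum : ∑ r ∈ range 6, fg 1 r = 2 + 8 / 7 + 32 / 1953 := by
  simp only [sum_range_succ, range_zero, sum_empty, fg]
  rw [if_neg d10, if_pos d11, if_neg d12, if_pos d13, if_neg d14, if_pos d15]
  norm_num [gg, QQ, prod_range_succ]

theorem gg_six : gg 6 < 0.0007 := by
  norm_num [gg, QQ, prod_range_succ]

/-- NMC: numerical values of the law -/
theorem nmc : Pool.Agent.Q283.FT.S_NMC := by
  have hb := bet_bd
  refine ⟨?_, ?_, ?_, ?_⟩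
  · rw [lawc_eq, if_pos d00]
    have : (2 : ℝ) ^ 0 / QQ 2 0 = 1 := by norm_num [QQ]
    rw [this, mul_one]
    exact hb
  · rw [lawc_eq, if_pos d11]
    have : (2 : ℝ) ^ 1 / QQ 2 1 = 2 := by norm_num [QQ]
    rw [this]
    constructor <;> linarith
  · rw [mean_eq]
    have h1 := tsum_bd 0
    rw [even_sum] at h1
    have h2 := gg_six
    have h3 : ∑' r : ℕ, fg 0 r < 2.8713 := by
      refine lt_of_le_of_lt h1 ?_
      norm_num
      norm_num at h2
      linarith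
    nlinarith
  · rw [mean_eq]
    have h1 := tsum_bd 1
    rw [odd_sum] at h1
    have h2 := gg_six
    have h3 : ∑' r : ℕ, fg 1 r < 3.1608 := by
      refine lt_of_le_of_lt h1 ?_
      norm_num
      norm_num at h2
      linarith
    nlinarith

end Pool.Agent.Q129.FT
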